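import Pool.Agent.H929.BW.Stm

/-!
# BW: from regions to general points (CONVE, CONVS)
-/

set_option autoImplicit false

namespace Pool.Agent.H738.BW

open Finset MvPolynomial Pool.Agent.H938R2 Pool.Agent.TH3.IR Pool.Agent.Y55.Col
  Pool.Agent.H929.BW

/-- a nonzero integer polynomial is nonzero at some complex point -/
theorem exists_pt {τ : Type} {G : MvPolynomial τ ℤ} (hG : G ≠ 0) :
    ∃ v : τ → ℂ, MvPolynomial.eval₂ (Int.castRingHom ℂ) v G ≠ 0 := by
  by_contra hcon
  push Not at hcon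
  apply hG
  have h1 := MvPolynomial.map_injective (σ := τ) (Int.castRingHom ℂ) (RingHom.injective_int _)
  apply h1
  rw [map_zero]
  apply MvPolynomial.funext
  intro v
  rw [eval_map, hcon v, map_zero]

/-- the point of affine space -/
noncomputable def pt {ι : Type} {n : ℕ} (v : ι × Option (Fin n) → ℂ) (i : ι) : Fin (n + 1) → ℂ :=
  Fin.cons (v (i, none)) fun j : Fin n => v (i, some j)

theorem elim_pt {ι : Type} {n : ℕ} (v : ι × Option (Fin n) → ℂ) :
    (fun q : ι × Option (Fin n) => Option.elim q.2 (pt v q.1 0) (fun j : Fin n => pt v q.1 j.succ))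
      = v := by
  funext q
  obtain ⟨i, _ | j⟩ := q
  · rfl
  · rfl

theorem vanishes_ker {n m : ℕ} (p : Fin (n + 1) → ℂ) {d : ℕ} {F : MvPolynomial (Fin (n + 2)) ℂ}
    (hF : F.IsHomogeneous d) (h : VanishesToOrder m (Fin.cons 1 p : Fin (n + 2) → ℂ) F) :
    F ∈ (RingHom.ker (MvPolynomial.eval (Fin.cons 1 p : Fin (n + 2) → ℂ))) ^ m := by
  have hne : (Fin.cons 1 p : Fin (n + 2) → ℂ) ≠ 0 := by
    intro h0
    have h1 := congrFun h0 0
    simp at h1
  have h1 := (Pool.Agent.TH176.FB.mem_pow_iff_vanishes hne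
    ((mem_homogeneousSubmodule _ _).2 hF)).2 h
  refine Ideal.pow_right_mono ?_ m h1
  intro G hG
  rw [RingHom.mem_ker]
  have h2 := hG 1
  rwa [one_smul] at h2

theorem lau_LMS' {n d m : ℕ} {F : MvPolynomial (Fin (n + 2)) ℂ} (hF : F.IsHomogeneous d)
    (p : Fin (n + 1) → ℂ)
    (h : F ∈ (RingHom.ker (MvPolynomial.eval (Fin.cons 1 p : Fin (n + 2) → ℂ))) ^ m) :
    LMS (lau F) (p 0) (fun j : Fin n => p j.succ) m := by
  have h2 := lau_LMS hF (P := (Fin.cons 1 p : Fin (n + 2) → ℂ)) (by simp) h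
  have e1 : (Fin.cons 1 p : Fin (n + 2) → ℂ) 0 = 1 := rfl
  have e2 : (Fin.cons 1 p : Fin (n + 2) → ℂ) 1 = p 0 := rfl
  have e3 : ∀ j : Fin n, (Fin.cons 1 p : Fin (n + 2) → ℂ) j.succ.succ = p j.succ :=
    fun j => rfl
  simp only [e1, e2, e3, div_one] at h2
  exact h2

theorem hom_ker {n d m : ℕ} (p : Fin (n + 1) → ℂ) {f : MvPolynomial (Fin (n + 1)) ℂ}
    (hf : ∀ a ∈ f.support, a.degree < d + 1) (hv : VanishesToOrder m p f) :
    hom d f ∈ (RingHom.ker (MvPolynomial.eval (Fin.cons 1 p : Fin (n + 2) → ℂ))) ^ m := by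
  apply vanishes_ker p (hom_hom hf)
  apply vanishes_of_dehom (hom_hom hf)
  rw [dehom_hom]
  exact hv

theorem t_CONVE : S_CONVE := by
  classical
  intro ι _ n d w h
  obtain ⟨G, hG0, hG⟩ := exists_minor h
  obtain ⟨v, hv⟩ := exists_pt hG0
  refine ⟨ι, inferInstance, w, pt v, rfl, ?_⟩
  intro F hF hV
  have hh := hom_hom hF
  have h1 : hom d F = 0 := by
    apply lau_eq_zero hh
    refine hG ℂ (fun i => pt v i 0) (fun i j => pt v i j.succ) ?_ (lau (hom d F))
      (lau_support hh) ?_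
    · have e := elim_pt v
      rw [e]
      exact hv
    · intro i
      exact lau_LMS' hh (pt v i) (hom_ker (pt v i) hF (hV i))
  rw [← dehom_hom (d := d) F, h1, map_zero]

theorem t_CONVS : S_CONVS := by
  classical
  intro ι _ n d w h
  obtain ⟨G, hG0, hG⟩ := exists_minorS h
  obtain ⟨v, hv⟩ := exists_pt hG0
  obtain ⟨T, hT, hTc, hE⟩ := hG ℂ (fun i => pt v i 0) (fun i j => pt v i j.succ) (by
    have e := elim_pt v
    rw [e]
    exact hv)
  set W : Submodule ℂ (MvPolynomial (Fin (n + 2)) ℂ) :=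
    MvPolynomial.homogeneousSubmodule (Fin (n + 2)) ℂ d ⊓ Submodule.restrictScalars ℂ
      (⨅ i : ι, (RingHom.ker (MvPolynomial.eval (Fin.cons 1 (pt v i) : Fin (n + 2) → ℂ))) ^ (w i))
    with hW
  have hWfin : Module.Finite ℂ W :=
    Submodule.finiteDimensional_of_le (inf_le_left : W ≤ homogeneousSubmodule (Fin (n + 2)) ℂ d)
  have hup := SMain.upper (n := n) (d := d) W (fun f hf => (Submodule.mem_inf.1 hf).1) T hT (by
    intro f hf hs
    have hfh : f.IsHomogeneous d := (Submodule.mem_inf.1 hf).1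
    refine lau_eq_zero hfh (hE (lau f) hs fun i => ?_)
    have h3 := (Submodule.mem_inf.1 hf).2
    rw [Submodule.restrictScalars_mem, Ideal.mem_iInf] at h3
    exact lau_LMS' hfh (pt v i) (h3 i))
  have hle : Module.finrank ℂ (Vd (d + 1) w (pt v)) ≤ Module.finrank ℂ W := by
    have h3 : Vd (d + 1) w (pt v) ≤ Submodule.map (Elim.dehom n).toLinearMap W := by
      intro f hf
      rw [mem_Vd] at hf
      refine ⟨hom d f, ?_, dehom_hom f⟩
      rw [hW]
      refine Submodule.mem_inf.2 ⟨hom_hom hf.1, ?_⟩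
      rw [Submodule.restrictScalars_mem, Ideal.mem_iInf]
      intro i
      exact hom_ker (pt v i) hf.1 (hf.2 i)
    refine (Submodule.finrank_mono h3).trans ?_
    exact Submodule.finrank_map_le _ _
  have hnc : nc (Fin n) w = ∑ i, cnt n (w i) := by
    unfold nc cnt
    rw [Fintype.card_fin]
  have hc : cnt n (d + 1) = (d + n + 1).choose (n + 1) := by
    unfold cnt
    congr 1
    omega
  rw [hTc, hnc] at hup
  refine ⟨cnt n (d + 1) - ∑ i, cnt n (w i), ?_, ?_⟩
  · exact emp_of_finrank w (pt v) (by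
      rw [hc]
      omega)
  · rw [Multiset.map_map]
    have e : (Multiset.map (cnt n ∘ w) (univ : Finset ι).val).sum = ∑ i, cnt n (w i) := rfl
    rw [e, hc]
    omega

end Pool.Agent.H738.BW
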